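import Pool.Agent.helper80.EN.Spec

/-!
# Row LBE: finitely generated groups residually in `GL_n` over finite fields have `P`
-/

set_option autoImplicit false

namespace Pool.Agent.helper80.EN

open Subgroup

universe u

theorem LBE_finite_hom (B G : Type u) [Group B] [Group G] [Finite G] (h : Group.FG B) : Finite (B →* G) := by
  obtain ⟨S, hS, hfin⟩ := Group.fg_iff.1 h
  have : Finite S := hfin.to_subtype
  refine Finite.of_injective (fun (φ : B →* G) (s : S) => φ s) fun φ ψ hφ => ?_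
  refine MonoidHom.eq_of_eqOn_dense hS fun s hs => ?_
  exact congrFun hφ ⟨s, hs⟩

theorem LBE_map_nilp {G L : Type u} [Group G] [Group L] (f : G →* L) (H : Subgroup G) (h : Group.IsNilpotent H) :
    Group.IsNilpotent (H.map f) :=
  Group.nilpotent_of_surjective (f.subgroupMap H) (f.subgroupMap_surjective H)

theorem LBE_mem {B G : Type u} [Group B] [Group G] (x : B) :
    x ∈ (⨅ φ : B →* G, φ.ker) ↔ ∀ φ : B →* G, φ x = 1 := by
  rw [mem_iInf]
  exact forall_congr' fun φ => MonoidHom.mem_ker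

theorem LBE_inv {B G : Type u} [Group B] [Group G] (α : B ≃* B) :
    (⨅ φ : B →* G, φ.ker).map (α : B →* B) = ⨅ φ : B →* G, φ.ker := by
  ext x
  rw [LBE_mem]
  constructor
  · rintro ⟨y, hy, rfl⟩ φ
    exact (LBE_mem y).1 hy (φ.comp (α : B →* B))
  · intro h
    refine ⟨α.symm x, (LBE_mem _).2 fun φ => ?_, ?_⟩
    · exact h (φ.comp (α.symm : B →* B))
    · exact α.apply_symm_apply x

theorem LBE_iter {B Q : Type u} [Group B] [Group Q] (f : B →* Q) (α : MulAut B) (β : MulAut Q)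
    (h : ∀ b, β (f b) = f (α b)) (b : B) (n : ℕ) : (del β)^[n] (f b) = f ((del α)^[n] b) := by
  induction n with
  | zero => rfl
  | succ n ih =>
    rw [Function.iterate_succ_apply', Function.iterate_succ_apply', ih]
    unfold del
    rw [h, map_mul, map_inv]

theorem LBE_bra {B Q : Type u} [Group B] [Group Q] (f : B →* Q) (hf : Function.Surjective f) (α : MulAut B)
    (β : MulAut Q) (h : ∀ b, β (f b) = f (α b)) : (Bra α).map f = Bra β := by
  unfold Bra
  rw [MonoidHom.map_closure]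
  refine le_antisymm (closure_mono ?_) (closure_mono ?_)
  · rintro _ ⟨_, ⟨b, rfl⟩, rfl⟩
    exact ⟨f b, LBE_iter f α β h b 1⟩
  · rintro _ ⟨y, rfl⟩
    obtain ⟨b, rfl⟩ := hf y
    exact ⟨del α b, ⟨b, rfl⟩, (LBE_iter f α β h b 1).symm⟩

/-- the image of `[B, α]` in `GL_n(k)` is nilpotent -/
theorem LBE_nilp (hPFI : PFI_stmt.{u}) (hTRF : TRF_stmt.{u}) (B G : Type u) [Group B] [Group G] [Finite G]
    (hB : Group.FG B) (α : MulAut B) (hα : EngelAut α) (ρ : B →* G) : Group.IsNilpotent ((Bra α).map ρ) := by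
  have hfin := LBE_finite_hom B G hB
  let N : Subgroup B := ⨅ φ : B →* G, φ.ker
  have hN : N.Normal := by
    refine ⟨fun x hx g => (LBE_mem _).2 fun φ => ?_⟩
    have h1 := (LBE_mem x).1 hx φ
    rw [map_mul, map_mul, h1, mul_one, map_inv, mul_inv_cancel]
  have hidx : N.FiniteIndex := by
    refine finiteIndex_iInf fun φ => ?_
    exact finiteIndex_ker φ
  have hQ : Finite (B ⧸ N) := finite_quotient_of_finiteIndex
  let β : MulAut (B ⧸ N) := QuotientGroup.congr N N α (LBE_inv (G := G) α)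
  have hβ : ∀ b : B, β (QuotientGroup.mk' N b) = QuotientGroup.mk' N (α b) := fun b => rfl
  have hE : EngelAut β := by
    intro y
    obtain ⟨b, rfl⟩ := QuotientGroup.mk'_surjective N y
    obtain ⟨m, hm⟩ := hα b
    exact ⟨m, by rw [LBE_iter (QuotientGroup.mk' N) α β hβ b m, hm, map_one]⟩
  have hL : LocNilp (Bra β) := hPFI (B ⧸ N) β hE
  have hFG : (Bra β).FG := (Group.fg_iff_subgroup_fg _).1 Group.fg_of_finite
  have hnil : Group.IsNilpotent (Bra β) := (hTRF (B ⧸ N)).2.2.2.2.2.1 (Bra β) hFG hL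
  have hle : ∀ x ∈ N, ρ x = 1 := fun x hx => (LBE_mem x).1 hx ρ
  have e : (Bra α).map ρ = (Bra β).map (QuotientGroup.lift N ρ hle) := by
    rw [← LBE_bra (QuotientGroup.mk' N) (QuotientGroup.mk'_surjective N) α β hβ, Subgroup.map_map]
    rfl
  rw [e]
  exact LBE_map_nilp _ _ hnil

theorem LBE (hPFI : PFI_stmt.{u}) (hNLN : NLN_stmt.{u}) (hSOL : SOL_stmt.{u}) (hTRF : TRF_stmt.{u}) :
    LBE_stmt.{u} := by
  intro B _ n hB hR α hα
  obtain ⟨d, hd⟩ := hNLN n
  refine hSOL.2 B α hα ⟨d, ?_⟩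
  rw [eq_bot_iff]
  intro x hx
  rw [mem_bot]
  by_contra hne
  obtain ⟨k, ik, fk, ρ, hρ⟩ := hR (x : B) fun h => hne (Subtype.ext h)
  apply hρ
  have hnil := LBE_nilp hPFI hTRF B (GL (Fin n) k) hB α hα ρ
  have hbot := hd k ((Bra α).map ρ) ((Bra α).map ρ).subtype (Subgroup.subtype_injective _) hnil
  have h1 : (ρ.subgroupMap (Bra α)) x ∈ derivedSeries ((Bra α).map ρ) d :=
    map_derivedSeries_le_derivedSeries (ρ.subgroupMap (Bra α)) d ⟨x, hx, rfl⟩
  rw [hbot, mem_bot] at h1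
  exact congrArg Subtype.val h1

end Pool.Agent.helper80.EN
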